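import Pool.Agent.H62.CYC.DefsP
import Pool.Graph.R_seed8.W707.TV.Path

/-!
# Project CYC2: the vertical sides (module PVERT)
-/

set_option autoImplicit false

namespace Pool.Agent.H95.CYC

open Finset Filter
open Pool.Agent.H62.CYC
open Pool.Agent.W709.VC (rect path Lf ell)
open Pool.Agent.W707.TV (Rh RH)
open scoped Real Topology

/-- the product over the nodes which are the poles -/
noncomputable def QQ (M k : ℕ) (ψ : ℂ) : ℂ :=
  ∏ j ∈ range (M - k), (2 * Complex.cos ψ - 2 * ((Real.cos (π * (2 * j + 1) / Rh M) : ℝ) : ℂ))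

lemma two_Rh (M : ℕ) : 2 * Rh M = 2 * M + 1 := by
  unfold Pool.Agent.W707.TV.Rh
  ring

lemma Rh_pos' (M : ℕ) : 0 < Rh M := Pool.Agent.W707.TV.Rh_pos M

lemma node (M k i : ℕ) (hi : i < k) (hk : k ≤ M) :
    Real.cos (π * (2 * ((M - k + i : ℕ) : ℝ) + 1) / Rh M) =
      Real.cos (2 * π * (((k - 1 - i : ℕ) : ℝ) + 1) / Rh M) := by
  have hR := Rh_pos' M
  have h2 := two_Rh M
  have e1 : ((M - k + i : ℕ) : ℝ) = M - k + i := by
    push_cast [Nat.cast_sub hk]
    ring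
  have e2 : ((k - 1 - i : ℕ) : ℝ) + 1 = k - i := by
    have : k - 1 - i = k - (i + 1) := by omega
    rw [this, Nat.cast_sub (by omega)]
    push_cast
    ring
  rw [e1, e2]
  have e3 : π * (2 * ((M : ℝ) - k + i) + 1) / Rh M = 2 * π - 2 * π * ((k : ℝ) - i) / Rh M := by
    field_simp
    linear_combination (-1 : ℝ) * h2
  rw [e3, Real.cos_two_pi_sub]

lemma split (M k : ℕ) (hk : k ≤ M) (ψ : ℂ) :
    Complex.sin (Rh M * ψ) = RH M k (ψ + π) * QQ M k ψ * Complex.sin (ψ / 2) := by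
  rw [← Pool.Agent.W707.TV.prod_full M ψ]
  congr 1
  have h1 : ∏ j ∈ range M, (2 * Complex.cos ψ - 2 * Complex.cos (Pool.Agent.W709.VC.zz (2 * M + 1) 2 j)) =
      ∏ j ∈ range M, (2 * Complex.cos ψ - 2 * ((Real.cos (π * (2 * j + 1) / Rh M) : ℝ) : ℂ)) := by
    refine Finset.prod_congr rfl fun j _ => ?_
    rw [Pool.Agent.W707.TV.zz_real, Complex.ofReal_cos]
  rw [h1]
  have h2 : M = (M - k) + k := by omega
  conv_lhs => rw [h2]
  rw [Finset.prod_range_add]
  have h3 : RH M k (ψ + π) = ∏ x ∈ range k, (2 * Complex.cos ψ -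
      2 * ((Real.cos (π * (2 * ((M - k + x : ℕ) : ℝ) + 1) / Rh M) : ℝ) : ℂ)) := by
    unfold Pool.Agent.W707.TV.RH
    rw [← Finset.prod_range_reflect]
    refine Finset.prod_congr rfl fun i hi => ?_
    rw [Finset.mem_range] at hi
    rw [node M k i hi hk, Complex.cos_add_pi]
    ring
  rw [h3]
  unfold QQ
  simp only [Nat.sub_add_cancel hk]
  rw [mul_comm]

lemma WT_eq (M k : ℕ) : WT M k = ∏ j ∈ range (M - k), (2 + 2 * Real.cos (π * (2 * j + 1) / Rh M)) := by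
  unfold WT
  refine Finset.prod_congr rfl fun j _ => ?_
  have h2 := two_Rh M
  have hR := Rh_pos' M
  have e : π * (2 * (j : ℝ) + 1) / Rh M = 2 * (π * (2 * j + 1) / (2 * M + 1)) := by
    rw [← h2]
    field_simp
  rw [e, Real.cos_two_mul]
  ring

lemma QQ_norm (M k : ℕ) (ψ : ℂ) (y : ℝ) (hc : Complex.cos ψ = -((Real.cosh y : ℝ) : ℂ)) :
    WT M k ≤ ‖QQ M k ψ‖ := by
  rw [WT_eq]
  unfold QQ
  rw [norm_prod]
  refine Finset.prod_le_prod (fun j _ => ?_) (fun j _ => ?_)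
  · have := Real.neg_one_le_cos (π * (2 * j + 1) / Rh M)
    linarith
  · rw [hc]
    have e : 2 * (-((Real.cosh y : ℝ) : ℂ)) - 2 * ((Real.cos (π * (2 * j + 1) / Rh M) : ℝ) : ℂ) =
        ((-(2 * Real.cosh y + 2 * Real.cos (π * (2 * j + 1) / Rh M)) : ℝ) : ℂ) := by
      push_cast
      ring
    rw [e, Complex.norm_real, Real.norm_eq_abs, abs_neg]
    refine le_trans ?_ (le_abs_self _)
    have := Real.one_le_cosh y
    linarith

lemma WT_nonneg (M k : ℕ) : 0 ≤ WT M k := by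
  unfold WT
  exact Finset.prod_nonneg fun j _ => sq_nonneg _

lemma HT_norm (p M k : ℕ) (hk : k ≤ M) (ψ : ℂ) (y E C : ℝ) (hc : Complex.cos ψ = -((Real.cosh y : ℝ) : ℂ))
    (hE : ‖Complex.exp (Complex.I * p * Rh M * ψ ^ 2 / (8 * π))‖ ≤ E)
    (hC : ‖2 * Complex.cos ((ψ + π) / 2)‖ ≤ C) :
    WT M k * ‖HT p M k ψ‖ ≤ C * E := by
  have hE0 : 0 ≤ E := (norm_nonneg _).trans hE
  have hC0 : 0 ≤ C := (norm_nonneg _).trans hC
  have hQ := QQ_norm M k ψ y hc
  have hW := WT_nonneg M k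
  unfold HT
  rw [split M k hk ψ]
  by_cases h0 : RH M k (ψ + π) * QQ M k ψ * Complex.sin (ψ / 2) = 0
  · rw [h0]
    simp
    positivity
  · have hR : RH M k (ψ + π) ≠ 0 := fun h => h0 (by rw [h]; ring)
    have hQ0 : QQ M k ψ ≠ 0 := fun h => h0 (by rw [h]; ring)
    have hs : Complex.sin (ψ / 2) ≠ 0 := fun h => h0 (by rw [h]; ring)
    have e : Complex.exp (Complex.I * p * Rh M * ψ ^ 2 / (8 * π)) *
        (RH M k (ψ + π) * (2 * Complex.cos ((ψ + π) / 2))) * Complex.sin (ψ / 2) /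
        (RH M k (ψ + π) * QQ M k ψ * Complex.sin (ψ / 2)) =
        Complex.exp (Complex.I * p * Rh M * ψ ^ 2 / (8 * π)) * (2 * Complex.cos ((ψ + π) / 2)) / QQ M k ψ := by
      field_simp
    rw [e, norm_div, norm_mul]
    have hQp : 0 < ‖QQ M k ψ‖ := norm_pos_iff.2 hQ0
    rw [mul_div_assoc', div_le_iff₀ hQp]
    have h1 : ‖Complex.exp (Complex.I * p * Rh M * ψ ^ 2 / (8 * π))‖ * ‖2 * Complex.cos ((ψ + π) / 2)‖ ≤ E * C :=
      mul_le_mul hE hC (norm_nonneg _) hE0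
    calc WT M k * (‖Complex.exp (Complex.I * p * Rh M * ψ ^ 2 / (8 * π))‖ * ‖2 * Complex.cos ((ψ + π) / 2)‖)
        ≤ ‖QQ M k ψ‖ * (E * C) := mul_le_mul hQ h1 (by positivity) hQp.le
      _ = C * E * ‖QQ M k ψ‖ := by ring

lemma exp_norm (p M : ℕ) (ψ : ℂ) (t : ℝ) (h : (ψ ^ 2).im = 2 * π * t) :
    ‖Complex.exp (Complex.I * p * Rh M * ψ ^ 2 / (8 * π))‖ = Real.exp (-(p * Rh M * t / 4)) := by
  rw [Complex.norm_exp]
  congr 1
  have hp : (π : ℝ) ≠ 0 := Real.pi_ne_zero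
  have e : Complex.I * p * Rh M * ψ ^ 2 / (8 * π) = ((p * Rh M / (8 * π) : ℝ) : ℂ) * (Complex.I * ψ ^ 2) := by
    push_cast
    ring
  rw [e, Complex.re_ofReal_mul, Complex.I_mul_re, h]
  field_simp
  ring

lemma cosh_half (y : ℝ) (hy : 0 ≤ y) : Real.cosh (y / 2) ≤ Real.cosh y := by
  rw [Real.cosh_le_cosh, abs_of_nonneg (by linarith), abs_of_nonneg hy]
  linarith

theorem pvert : S_PVERT := by
  intro p M k hk hk2 y hy
  have hR := Rh_pos' M
  have hch := cosh_half y hy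
  have hnc : ∀ z : ℝ, ‖2 * ((Real.cosh z : ℝ) : ℂ)‖ = 2 * Real.cosh z := by
    intro z
    have e : 2 * ((Real.cosh z : ℝ) : ℂ) = ((2 * Real.cosh z : ℝ) : ℂ) := by push_cast; ring
    rw [e, Complex.norm_real, Real.norm_of_nonneg (by have := Real.cosh_pos z; positivity)]
  constructor
  · have hc : Complex.cos (π + y * Complex.I) = -((Real.cosh y : ℝ) : ℂ) := by
      rw [add_comm, Complex.cos_add_pi, Complex.cos_mul_I, Complex.ofReal_cosh]
    have hC : ‖2 * Complex.cos (((π : ℂ) + y * Complex.I + π) / 2)‖ ≤ 2 * Real.cosh y := by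
      have e : ((π : ℂ) + y * Complex.I + π) / 2 = ((y / 2 : ℝ) : ℂ) * Complex.I + π := by
        push_cast
        ring
      rw [e, Complex.cos_add_pi, Complex.cos_mul_I, ← Complex.ofReal_cosh, mul_neg, norm_neg, hnc]
      linarith
    have hE : ‖Complex.exp (Complex.I * p * Rh M * ((π : ℂ) + y * Complex.I) ^ 2 / (8 * π))‖ ≤ 1 := by
      rw [exp_norm p M _ y ?_]
      · rw [Real.exp_le_one_iff]
        have : 0 ≤ (p : ℝ) * Rh M * y / 4 := by positivity
        linarith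
      · simp [pow_two]
        ring
    have := HT_norm p M k hk.le _ y 1 _ hc hE hC
    rwa [mul_one] at this
  · have hc : Complex.cos (-π + y * Complex.I) = -((Real.cosh y : ℝ) : ℂ) := by
      have e : (-(π : ℂ) + y * Complex.I) = y * Complex.I - π := by ring
      rw [e, Complex.cos_sub_pi, Complex.cos_mul_I, Complex.ofReal_cosh]
    have hC : ‖2 * Complex.cos ((-(π : ℂ) + y * Complex.I + π) / 2)‖ ≤ 2 * Real.cosh y := by
      have e : (-(π : ℂ) + y * Complex.I + π) / 2 = ((y / 2 : ℝ) : ℂ) * Complex.I := by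
        push_cast
        ring
      rw [e, Complex.cos_mul_I, ← Complex.ofReal_cosh, hnc]
      linarith
    have hE : ‖Complex.exp (Complex.I * p * Rh M * (-(π : ℂ) + y * Complex.I) ^ 2 / (8 * π))‖ ≤
        Real.exp (p * Rh M * y / 4) := by
      rw [exp_norm p M _ (-y) ?_]
      · refine le_of_eq ?_
        congr 1
        ring
      · simp [pow_two]
        ring
    exact HT_norm p M k hk.le _ y _ _ hc hE hC

end Pool.Agent.H95.CYC
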